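import Pool.Agent.TH264.Bridge.PW

/-!
# Peter-Weyl: unitary representations of a compact Hausdorff group separate points
-/

set_option autoImplicit false

namespace Pool.Agent.Y842.CX

/-- the continuous finite-dimensional unitary representations of a compact Hausdorff group separate its points -/
theorem separated_of_compact (K : Type) [TopologicalSpace K] [Group K] [IsTopologicalGroup K] [CompactSpace K]
    [T2Space K] (a b : K) (hab : a ≠ b) :
    ∃ (r : ℕ) (ρ : K →* Matrix.unitaryGroup (Fin r) ℂ), Continuous ρ ∧ ρ a ≠ ρ b := by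
  have hk : a * b⁻¹ ≠ 1 := fun h => hab (mul_inv_eq_one.1 h)
  obtain ⟨N, ρ₀, h1, h2⟩ := Pool.Agent.TH264.Bridge.PWaux1.exists_rep_ne_one K (a * b⁻¹) hk
  obtain ⟨ι, _, _, ρ, h3, h4⟩ := Pool.Agent.TH264.Bridge.PWaux2.PW_unit K (a * b⁻¹) N ρ₀ h1 h2
  let e : ι ≃ Fin (Fintype.card ι) := Fintype.equivFin ι
  have hmem : ∀ g, (ρ g : Matrix ι ι ℂ).submatrix e.symm e.symm ∈ Matrix.unitaryGroup (Fin (Fintype.card ι)) ℂ := by
    intro g
    rw [Matrix.mem_unitaryGroup_iff', Matrix.star_eq_conjTranspose, Matrix.conjTranspose_submatrix,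
      Matrix.submatrix_mul_equiv]
    have h5 := Matrix.mem_unitaryGroup_iff'.1 (ρ g).2
    rw [Matrix.star_eq_conjTranspose] at h5
    rw [h5]
    exact Matrix.submatrix_one_equiv e.symm
  let σ : K →* Matrix.unitaryGroup (Fin (Fintype.card ι)) ℂ :=
    { toFun := fun g => ⟨(ρ g : Matrix ι ι ℂ).submatrix e.symm e.symm, hmem g⟩
      map_one' := by
        apply Subtype.ext
        show ((ρ 1 : Matrix.unitaryGroup ι ℂ) : Matrix ι ι ℂ).submatrix e.symm e.symm = 1
        rw [map_one]
        exact Matrix.submatrix_one_equiv e.symm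
      map_mul' := fun g h => by
        apply Subtype.ext
        show ((ρ (g * h) : Matrix.unitaryGroup ι ℂ) : Matrix ι ι ℂ).submatrix e.symm e.symm =
          (ρ g : Matrix ι ι ℂ).submatrix e.symm e.symm * (ρ h : Matrix ι ι ℂ).submatrix e.symm e.symm
        rw [map_mul, Matrix.submatrix_mul_equiv]
        rfl }
  refine ⟨Fintype.card ι, σ, ?_, ?_⟩
  · apply Continuous.subtype_mk
    exact (continuous_subtype_val.comp h3).matrix_submatrix _ _
  · intro h5
    apply h4
    have h6 : (ρ a : Matrix ι ι ℂ).submatrix e.symm e.symm = (ρ b : Matrix ι ι ℂ).submatrix e.symm e.symm :=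
      congrArg Subtype.val h5
    have h7 : ρ a = ρ b := by
      apply Subtype.ext
      ext i j
      have h8 := congrFun (congrFun h6 (e i)) (e j)
      simpa using h8
    rw [map_mul, map_inv, h7, mul_inv_cancel]

end Pool.Agent.Y842.CX
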