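import Pool.Agent.Y842.CX.Vdc

/-!
Library Y842.CX (helper842), part 2: families of averages; sequences killed by correlations; short sums.
-/

set_option autoImplicit false

open Finset Filter Topology

namespace Pool.Agent.Y842.CX

section
variable {ι : Type} {l : Filter ι} {w : ι → ℕ → ℝ} {M : ι → ℕ} {C : ℝ} {τ : ι → ℝ}

/-- a family of averages, nearly invariant under the shift along the filter -/
structure Fam (l : Filter ι) (w : ι → ℕ → ℝ) (M : ι → ℕ) (C : ℝ) (τ : ι → ℝ) : Prop where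
  wt : ∀ᶠ i in l, Wt (w i) (M i) C (τ i)
  lim : Tendsto τ l (𝓝 0)

/-- the correlations of `u` with the weight `b` tend to `0` -/
def Kills (u : ℕ → ℂ) (l : Filter ι) (w : ι → ℕ → ℝ) (M : ι → ℕ) (b : ℕ → ℂ) : Prop :=
  ∀ k : ℕ, 1 ≤ k → ∀ ε : ℝ, 0 < ε → ∀ᶠ i in l,
    ‖L (w i) (M i) (fun n => (starRingEnd ℂ) (u n) * u (n + k) * b n)‖ ≤ ε

variable {u : ℕ → ℂ}

lemma Kills.add {b b' : ℕ → ℂ} (h : Kills u l w M b) (h' : Kills u l w M b') :
    Kills u l w M (fun n => b n + b' n) := by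
  intro k hk ε hε
  filter_upwards [h k hk (ε / 2) (by positivity), h' k hk (ε / 2) (by positivity)] with i h1 h2
  have e : (fun n => (starRingEnd ℂ) (u n) * u (n + k) * (b n + b' n)) =
      fun n => (starRingEnd ℂ) (u n) * u (n + k) * b n + (starRingEnd ℂ) (u n) * u (n + k) * b' n := by
    funext n
    ring
  rw [e, L_add]
  refine (norm_add_le _ _).trans ?_
  linarith

lemma Kills.smul {b : ℕ → ℂ} (h : Kills u l w M b) (c : ℂ) : Kills u l w M (fun n => c * b n) := by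
  intro k hk ε hε
  have hc : 0 < ‖c‖ + 1 := by positivity
  filter_upwards [h k hk (ε / (‖c‖ + 1)) (by positivity)] with i h1
  have e : (fun n => (starRingEnd ℂ) (u n) * u (n + k) * (c * b n)) =
      fun n => c • ((starRingEnd ℂ) (u n) * u (n + k) * b n) := by
    funext n
    rw [smul_eq_mul]
    ring
  rw [e, L_smul, norm_smul]
  calc ‖c‖ * ‖L (w i) (M i) (fun n => (starRingEnd ℂ) (u n) * u (n + k) * b n)‖ ≤ (‖c‖ + 1) * (ε / (‖c‖ + 1)) :=
        mul_le_mul (by linarith) h1 (norm_nonneg _) hc.le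
    _ = ε := by field_simp

lemma Kills.zero : Kills u l w M (fun _ => 0) := by
  intro k hk ε hε
  refine Eventually.of_forall fun i => ?_
  unfold L
  simp [hε.le]

lemma Kills.sum {J : Type*} (s : Finset J) (b : J → ℕ → ℂ) (h : ∀ j ∈ s, Kills u l w M (b j)) :
    Kills u l w M (fun n => ∑ j ∈ s, b j n) := by
  classical
  induction s using Finset.induction_on with
  | empty => simpa using (Kills.zero (u := u) (l := l) (w := w) (M := M))
  | insert j s hj ih =>
    have e : (fun n => ∑ j ∈ insert j s, b j n) = fun n => b j n + ∑ j ∈ s, b j n := by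
      funext n
      rw [sum_insert hj]
    rw [e]
    exact (h j (mem_insert_self j s)).add (ih fun j' hj' => h j' (mem_insert_of_mem hj'))

lemma Kills.approx (hF : Fam l w M C τ) (hu : ∀ n, ‖u n‖ ≤ 1) {b : ℕ → ℂ}
    (h : ∀ ε : ℝ, 0 < ε → ∃ b' : ℕ → ℂ, Kills u l w M b' ∧
      ∀ᶠ i in l, ∑ n ∈ range (M i), w i n * ‖b n - b' n‖ ≤ ε) : Kills u l w M b := by
  intro k hk ε hε
  obtain ⟨b', h1, h2⟩ := h (ε / 2) (by positivity)
  filter_upwards [h1 k hk (ε / 2) (by positivity), h2, hF.wt] with i h3 h4 h5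
  have e : (fun n => (starRingEnd ℂ) (u n) * u (n + k) * b n) =
      fun n => (starRingEnd ℂ) (u n) * u (n + k) * b' n + (starRingEnd ℂ) (u n) * u (n + k) * (b n - b' n) := by
    funext n
    ring
  rw [e, L_add]
  refine (norm_add_le _ _).trans ?_
  have h6 : ‖L (w i) (M i) (fun n => (starRingEnd ℂ) (u n) * u (n + k) * (b n - b' n))‖ ≤ ε / 2 := by
    refine (L_norm_le h5 _).trans (le_trans ?_ h4)
    refine sum_le_sum fun n _ => mul_le_mul_of_nonneg_left ?_ (h5.nn n)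
    rw [norm_mul, norm_mul, RCLike.norm_conj]
    calc ‖u n‖ * ‖u (n + k)‖ * ‖b n - b' n‖ ≤ 1 * 1 * ‖b n - b' n‖ := by
          gcongr
          · exact hu n
          · exact hu _
      _ = ‖b n - b' n‖ := by ring
  linarith

/-- sums over short intervals are small on average -/
def Short (u : ℕ → ℂ) (l : Filter ι) (w : ι → ℕ → ℝ) (M : ι → ℕ) (F : ℕ → ℂ) : Prop :=
  ∀ ε : ℝ, 0 < ε → ∃ H₀ : ℕ, ∀ H : ℕ, H₀ ≤ H → ∀ᶠ i in l,
    ∑ n ∈ range (M i), w i n * ‖∑ m ∈ range H, u (n + m) * F (n + m)‖ ≤ ε * H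

lemma Short.add (hF : Fam l w M C τ) {F G : ℕ → ℂ} (h : Short u l w M F) (h' : Short u l w M G) :
    Short u l w M (fun n => F n + G n) := by
  intro ε hε
  obtain ⟨H₁, h1⟩ := h (ε / 2) (by positivity)
  obtain ⟨H₂, h2⟩ := h' (ε / 2) (by positivity)
  refine ⟨max H₁ H₂, fun H hH => ?_⟩
  filter_upwards [h1 H (le_trans (le_max_left _ _) hH), h2 H (le_trans (le_max_right _ _) hH), hF.wt] with i h3 h4 h5
  have e : ∑ n ∈ range (M i), w i n * ‖∑ m ∈ range H, u (n + m) * (F (n + m) + G (n + m))‖ ≤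
      ∑ n ∈ range (M i), w i n * ‖∑ m ∈ range H, u (n + m) * F (n + m)‖ +
        ∑ n ∈ range (M i), w i n * ‖∑ m ∈ range H, u (n + m) * G (n + m)‖ := by
    rw [← sum_add_distrib]
    refine sum_le_sum fun n _ => ?_
    rw [← mul_add]
    apply mul_le_mul_of_nonneg_left _ (h5.nn n)
    have e1 : ∑ m ∈ range H, u (n + m) * (F (n + m) + G (n + m)) =
        ∑ m ∈ range H, u (n + m) * F (n + m) + ∑ m ∈ range H, u (n + m) * G (n + m) := by
      rw [← sum_add_distrib]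
      exact sum_congr rfl fun m _ => mul_add _ _ _
    rw [e1]
    exact norm_add_le _ _
  linarith

lemma Short.smul (hF : Fam l w M C τ) {F : ℕ → ℂ} (h : Short u l w M F) (c : ℂ) :
    Short u l w M (fun n => c * F n) := by
  intro ε hε
  have hc : 0 < ‖c‖ + 1 := by positivity
  obtain ⟨H₁, h1⟩ := h (ε / (‖c‖ + 1)) (by positivity)
  refine ⟨H₁, fun H hH => ?_⟩
  filter_upwards [h1 H hH, hF.wt] with i h3 h5
  have e : ∑ n ∈ range (M i), w i n * ‖∑ m ∈ range H, u (n + m) * (c * F (n + m))‖ =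
      ‖c‖ * ∑ n ∈ range (M i), w i n * ‖∑ m ∈ range H, u (n + m) * F (n + m)‖ := by
    rw [mul_sum]
    refine sum_congr rfl fun n _ => ?_
    have e1 : ∑ m ∈ range H, u (n + m) * (c * F (n + m)) = c * ∑ m ∈ range H, u (n + m) * F (n + m) := by
      rw [mul_sum]
      exact sum_congr rfl fun m _ => by ring
    rw [e1, norm_mul]
    ring
  rw [e]
  have h6 : 0 ≤ ∑ n ∈ range (M i), w i n * ‖∑ m ∈ range H, u (n + m) * F (n + m)‖ :=
    sum_nonneg fun n _ => mul_nonneg (h5.nn n) (norm_nonneg _)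
  calc ‖c‖ * ∑ n ∈ range (M i), w i n * ‖∑ m ∈ range H, u (n + m) * F (n + m)‖ ≤
        (‖c‖ + 1) * (ε / (‖c‖ + 1) * H) := mul_le_mul (by linarith) h3 h6 hc.le
    _ = ε * H := by field_simp

lemma Short.zero : Short u l w M (fun _ => 0) := by
  intro ε hε
  refine ⟨0, fun H _ => Eventually.of_forall fun i => ?_⟩
  simp
  positivity

lemma Short.approx (hF : Fam l w M C τ) (hu : ∀ n, ‖u n‖ ≤ 1) {F : ℕ → ℂ}
    (h : ∀ ε : ℝ, 0 < ε → ∃ G : ℕ → ℂ, Short u l w M G ∧ ∀ n, ‖F n - G n‖ ≤ ε) : Short u l w M F := by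
  intro ε hε
  set C' : ℝ := |C| + 1 with hC'
  have hC0 : 0 < C' := by positivity
  obtain ⟨G, h1, h2⟩ := h (ε / (2 * C')) (by positivity)
  obtain ⟨H₁, h3⟩ := h1 (ε / 2) (by positivity)
  refine ⟨H₁, fun H hH => ?_⟩
  filter_upwards [h3 H hH, hF.wt] with i h4 h5
  have e : ∑ n ∈ range (M i), w i n * ‖∑ m ∈ range H, u (n + m) * F (n + m)‖ ≤
      ∑ n ∈ range (M i), w i n * ‖∑ m ∈ range H, u (n + m) * G (n + m)‖ +
        ∑ n ∈ range (M i), w i n * (H * (ε / (2 * C'))) := by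
    rw [← sum_add_distrib]
    refine sum_le_sum fun n _ => ?_
    rw [← mul_add]
    apply mul_le_mul_of_nonneg_left _ (h5.nn n)
    have e1 : ∑ m ∈ range H, u (n + m) * F (n + m) =
        ∑ m ∈ range H, u (n + m) * G (n + m) + ∑ m ∈ range H, u (n + m) * (F (n + m) - G (n + m)) := by
      rw [← sum_add_distrib]
      exact sum_congr rfl fun m _ => by ring
    rw [e1]
    refine (norm_add_le _ _).trans ?_
    have e2 : ‖∑ m ∈ range H, u (n + m) * (F (n + m) - G (n + m))‖ ≤ H * (ε / (2 * C')) := by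
      refine (norm_sum_le _ _).trans ?_
      refine (sum_le_sum (g := fun _ => ε / (2 * C')) fun m _ => ?_).trans (by simp)
      rw [norm_mul]
      calc ‖u (n + m)‖ * ‖F (n + m) - G (n + m)‖ ≤ 1 * (ε / (2 * C')) :=
            mul_le_mul (hu _) (h2 _) (norm_nonneg _) zero_le_one
        _ = _ := one_mul _
    linarith
  have h6 : ∑ n ∈ range (M i), w i n * (H * (ε / (2 * C'))) ≤ ε / 2 * H := by
    rw [← sum_mul]
    have h7 : ∑ n ∈ range (M i), w i n ≤ C' := h5.tot.trans (by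
      rw [hC']
      have := le_abs_self C
      linarith)
    calc (∑ n ∈ range (M i), w i n) * (H * (ε / (2 * C'))) ≤ C' * (H * (ε / (2 * C'))) :=
          mul_le_mul_of_nonneg_right h7 (by positivity)
      _ = ε / 2 * H := by field_simp
  linarith

/-- sequences of vectors whose correlations are killed have small short sums -/
theorem short_vec {V : Type*} [NormedAddCommGroup V] [InnerProductSpace ℂ V] (hF : Fam l w M C τ)
    (hu : ∀ n, ‖u n‖ ≤ 1) (v : ℕ → V) (hv : ∀ n, ‖v n‖ ≤ 1)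
    (hk : ∀ k : ℕ, 1 ≤ k → ∀ ε : ℝ, 0 < ε → ∀ᶠ i in l,
      ‖L (w i) (M i) (fun n => (starRingEnd ℂ) (u n) * u (n + k) * inner ℂ (v n) (v (n + k)))‖ ≤ ε)
    (H : ℕ) (ε : ℝ) (hε : 0 < ε) :
    ∀ᶠ i in l, Qs (w i) (M i) H (fun n => u n • v n) ≤ H * C + ε := by
  set η : ℝ := ε / (2 * (H + 1) ^ 3) with hη
  have hη0 : 0 < η := by positivity
  have h1 : ∀ᶠ i in l, ∀ k ∈ Ico 1 H,
      ‖L (w i) (M i) (fun n => (starRingEnd ℂ) (u n) * u (n + k) * inner ℂ (v n) (v (n + k)))‖ ≤ η := by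
    rw [Filter.eventually_all_finset]
    intro k hk'
    exact hk k (mem_Ico.1 hk').1 η hη0
  filter_upwards [h1, hF.wt, hF.lim.eventually_lt_const hη0] with i h2 h3 h4
  have h5 := vdc h3 (fun n => u n • v n) (fun n => by
    rw [norm_smul]
    exact mul_le_one₀ (hu n) (norm_nonneg _) (hv n)) H
  have h6 : ∑ j ∈ Ico 1 H, ‖L (w i) (M i) (cr (fun n => u n • v n) j)‖ ≤ H * η := by
    calc ∑ j ∈ Ico 1 H, ‖L (w i) (M i) (cr (fun n => u n • v n) j)‖ ≤ ∑ j ∈ Ico 1 H, η := by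
          refine sum_le_sum fun j hj => ?_
          refine le_trans (le_of_eq ?_) (h2 j hj)
          congr 2
          funext n
          unfold cr
          rw [inner_smul_left, inner_smul_right]
          ring
      _ = ((Ico 1 H).card : ℝ) * η := by rw [sum_const, nsmul_eq_mul]
      _ ≤ H * η := by
          apply mul_le_mul_of_nonneg_right _ hη0.le
          rw [Nat.card_Ico]
          exact_mod_cast Nat.sub_le _ _
  have h7 : (H : ℝ) ^ 2 * (∑ j ∈ Ico 1 H, ‖L (w i) (M i) (cr (fun n => u n • v n) j)‖ + H * τ i) ≤ ε := by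
    have hH : (0 : ℝ) ≤ H := Nat.cast_nonneg H
    calc (H : ℝ) ^ 2 * (∑ j ∈ Ico 1 H, ‖L (w i) (M i) (cr (fun n => u n • v n) j)‖ + H * τ i) ≤
        (H : ℝ) ^ 2 * (H * η + H * η) := by
          apply mul_le_mul_of_nonneg_left _ (by positivity)
          have := mul_le_mul_of_nonneg_left h4.le hH
          linarith
      _ = 2 * (H : ℝ) ^ 3 * η := by ring
      _ ≤ 2 * ((H : ℝ) + 1) ^ 3 * η := by
          apply mul_le_mul_of_nonneg_right _ hη0.le
          apply mul_le_mul_of_nonneg_left _ (by norm_num)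
          exact pow_le_pow_left₀ hH (by linarith) 3
      _ = ε := by
          rw [hη]
          field_simp
  linarith

/-- a coordinate of such a sequence has small short sums -/
theorem short_coord {V : Type*} [NormedAddCommGroup V] [InnerProductSpace ℂ V] (hF : Fam l w M C τ)
    (hu : ∀ n, ‖u n‖ ≤ 1) (v : ℕ → V) (hv : ∀ n, ‖v n‖ ≤ 1)
    (hk : ∀ k : ℕ, 1 ≤ k → ∀ ε : ℝ, 0 < ε → ∀ᶠ i in l,
      ‖L (w i) (M i) (fun n => (starRingEnd ℂ) (u n) * u (n + k) * inner ℂ (v n) (v (n + k)))‖ ≤ ε)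
    (F : ℕ → ℂ) (hFv : ∀ (n H : ℕ), ‖∑ m ∈ range H, u (n + m) * F (n + m)‖ ≤ ‖∑ m ∈ range H, u (n + m) • v (n + m)‖) :
    Short u l w M F := by
  intro ε hε
  set C' : ℝ := |C| + 1 with hC'
  have hC0 : 1 ≤ C' := by
    rw [hC']
    have := abs_nonneg C
    linarith
  obtain ⟨H₀, hH₀⟩ := exists_nat_ge (C' * (C' + 1) / ε ^ 2)
  refine ⟨H₀ + 1, fun H hH => ?_⟩
  have hH1 : (1 : ℝ) ≤ H := by exact_mod_cast (by omega : 1 ≤ H)
  filter_upwards [short_vec hF hu v hv hk H 1 one_pos, hF.wt] with i h1 h2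
  have hCC : C ≤ C' := by
    rw [hC']
    have := le_abs_self C
    linarith
  have h3 : ∑ n ∈ range (M i), w i n * ‖∑ m ∈ range H, u (n + m) * F (n + m)‖ ≤
      ∑ n ∈ range (M i), w i n * ‖∑ m ∈ range H, u (n + m) • v (n + m)‖ :=
    sum_le_sum fun n _ => mul_le_mul_of_nonneg_left (hFv n H) (h2.nn n)
  refine h3.trans ?_
  apply le_of_sq_le_sq _ (by positivity)
  have e1 : (∑ n ∈ range (M i), w i n * ‖∑ m ∈ range H, u (n + m) • v (n + m)‖) ^ 2 ≤
      (∑ n ∈ range (M i), w i n) * ∑ n ∈ range (M i), w i n * ‖∑ m ∈ range H, u (n + m) • v (n + m)‖ ^ 2 := by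
    have e2 := sum_mul_sq_le_sq_mul_sq (range (M i)) (fun n => Real.sqrt (w i n))
      (fun n => Real.sqrt (w i n) * ‖∑ m ∈ range H, u (n + m) • v (n + m)‖)
    have e3 : ∑ n ∈ range (M i), Real.sqrt (w i n) * (Real.sqrt (w i n) * ‖∑ m ∈ range H, u (n + m) • v (n + m)‖) =
        ∑ n ∈ range (M i), w i n * ‖∑ m ∈ range H, u (n + m) • v (n + m)‖ := by
      refine sum_congr rfl fun n _ => ?_
      rw [← mul_assoc, Real.mul_self_sqrt (h2.nn n)]
    have e4 : ∑ n ∈ range (M i), Real.sqrt (w i n) ^ 2 = ∑ n ∈ range (M i), w i n :=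
      sum_congr rfl fun n _ => Real.sq_sqrt (h2.nn n)
    have e5 : ∑ n ∈ range (M i), (Real.sqrt (w i n) * ‖∑ m ∈ range H, u (n + m) • v (n + m)‖) ^ 2 =
        ∑ n ∈ range (M i), w i n * ‖∑ m ∈ range H, u (n + m) • v (n + m)‖ ^ 2 := by
      refine sum_congr rfl fun n _ => ?_
      rw [mul_pow, Real.sq_sqrt (h2.nn n)]
    rw [e3, e4, e5] at e2
    exact e2
  have hC1 := h2.C_nonneg
  have h4 : ∑ n ∈ range (M i), w i n * ‖∑ m ∈ range H, u (n + m) • v (n + m)‖ ^ 2 ≤ H * C + 1 := h1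
  have h5 : 0 ≤ ∑ n ∈ range (M i), w i n * ‖∑ m ∈ range H, u (n + m) • v (n + m)‖ ^ 2 :=
    sum_nonneg fun n _ => mul_nonneg (h2.nn n) (sq_nonneg _)
  calc _ ≤ (∑ n ∈ range (M i), w i n) * ∑ n ∈ range (M i), w i n * ‖∑ m ∈ range H, u (n + m) • v (n + m)‖ ^ 2 := e1
    _ ≤ C' * (H * C' + H) := by
        apply mul_le_mul (h2.tot.trans hCC) _ h5 (by linarith)
        have : (H : ℝ) * C ≤ H * C' := mul_le_mul_of_nonneg_left hCC (by linarith)
        linarith
    _ = (C' * (C' + 1) / ε ^ 2) * (ε ^ 2 * H) := by field_simp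
    _ ≤ H * (ε ^ 2 * H) := by
        apply mul_le_mul_of_nonneg_right _ (by positivity)
        refine hH₀.trans ?_
        exact_mod_cast (by omega : H₀ ≤ H)
    _ = (ε * H) ^ 2 := by ring

/-- from short sums to long sums -/
theorem long_of_short (hF : Fam l w M C τ) (hu : ∀ n, ‖u n‖ ≤ 1) {F : ℕ → ℂ} (B : ℝ) (hB : ∀ n, ‖F n‖ ≤ B)
    (h : Short u l w M F) (ε : ℝ) (hε : 0 < ε) :
    ∀ᶠ i in l, ‖L (w i) (M i) (fun n => u n * F n)‖ ≤ ε := by
  obtain ⟨H₀, h1⟩ := h (ε / 2) (by positivity)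
  have hB0 : 0 ≤ B := (norm_nonneg _).trans (hB 0)
  set H := H₀ + 1 with hH
  have hH0 : (0 : ℝ) < H := by exact_mod_cast (by omega : 0 < H)
  have hη : 0 < ε / (2 * H * (B + 1)) := by positivity
  filter_upwards [h1 H (by omega), hF.wt, hF.lim.eventually_lt_const hη] with i h2 h3 h4
  have hb : ∀ n, ‖u n * F n‖ ≤ B := by
    intro n
    rw [norm_mul]
    calc ‖u n‖ * ‖F n‖ ≤ 1 * B := mul_le_mul (hu n) (hB n) (norm_nonneg _) zero_le_one
      _ = B := one_mul _
  have hτ := h3.τ_nonneg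
  have h5 : ‖L (w i) (M i) (fun n => ∑ m ∈ range H, u (n + m) * F (n + m)) -
      (H : ℂ) • L (w i) (M i) (fun n => u n * F n)‖ ≤ H * (H * (τ i * B)) := by
    rw [L_sum]
    have e1 : (H : ℂ) • L (w i) (M i) (fun n => u n * F n) =
        ∑ m ∈ range H, L (w i) (M i) (fun n => u n * F n) := by
      rw [sum_const, card_range, Nat.cast_smul_eq_nsmul]
    rw [e1, ← sum_sub_distrib]
    refine (norm_sum_le _ _).trans ?_
    calc ∑ m ∈ range H, ‖L (w i) (M i) (fun n => u (n + m) * F (n + m)) -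
          L (w i) (M i) (fun n => u n * F n)‖ ≤ ∑ m ∈ range H, (H : ℝ) * (τ i * B) := by
          refine sum_le_sum fun m hm => (L_shift h3 (fun n => u n * F n) B hb m).trans ?_
          apply mul_le_mul_of_nonneg_right _ (mul_nonneg hτ hB0)
          exact_mod_cast (mem_range.1 hm).le
      _ = H * (H * (τ i * B)) := by
          rw [sum_const, card_range, nsmul_eq_mul]
  have h6 : ‖L (w i) (M i) (fun n => ∑ m ∈ range H, u (n + m) * F (n + m))‖ ≤ ε / 2 * H :=
    (L_norm_le h3 _).trans h2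
  have h7 : ‖(H : ℂ) • L (w i) (M i) (fun n => u n * F n)‖ = H * ‖L (w i) (M i) (fun n => u n * F n)‖ := by
    rw [norm_smul, Complex.norm_natCast]
  have h8 := norm_sub_norm_le ((H : ℂ) • L (w i) (M i) (fun n => u n * F n))
    (L (w i) (M i) (fun n => ∑ m ∈ range H, u (n + m) * F (n + m)))
  rw [h7, norm_sub_rev] at h8
  have h9 : (H : ℝ) * (τ i * B) ≤ ε / 2 := by
    calc (H : ℝ) * (τ i * B) ≤ H * (ε / (2 * H * (B + 1)) * (B + 1)) := by
          apply mul_le_mul_of_nonneg_left _ hH0.le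
          exact mul_le_mul h4.le (by linarith) hB0 hη.le
      _ = ε / 2 := by field_simp
  have h10 : H * ‖L (w i) (M i) (fun n => u n * F n)‖ ≤ H * ε := by
    have := mul_le_mul_of_nonneg_left h9 hH0.le
    linarith
  exact le_of_mul_le_mul_left h10 hH0

end

end Pool.Agent.Y842.CX
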