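import Pool.Agent.Y842.CX.Cls

/-!
Library Y842.CX (helper842), part 3: extensions of dynamical systems whose functions have finite rank over the
factor.
-/

set_option autoImplicit false

open Finset Filter Topology

namespace Pool.Agent.Y842.CX

section
variable {X Y : Type} [TopologicalSpace X] [TopologicalSpace Y]

/-- functions of finite rank over the factor -/
def Good (T : X → X) (π : X → Y) (F : C(X, ℂ)) : Prop :=
  ∃ (J : Type) (_ : Fintype J) (V : J → C(X, ℂ)), (∃ j, V j = F) ∧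
    ∀ m : ℕ, ∃ c : C(Y, ℂ), ∀ x, ∑ j, V j x * (starRingEnd ℂ) (V j (T^[m] x)) = c (π x)

variable {T : X → X} {π : X → Y}

lemma good_mul {F G : C(X, ℂ)} (hF : Good T π F) (hG : Good T π G) : Good T π (F * G) := by
  obtain ⟨J, iJ, V, ⟨j, hj⟩, hV⟩ := hF
  obtain ⟨J', iJ', V', ⟨j', hj'⟩, hV'⟩ := hG
  refine ⟨J × J', inferInstance, fun t => V t.1 * V' t.2, ⟨(j, j'), by
    show V j * V' j' = F * G
    rw [hj, hj']⟩, fun m => ?_⟩
  obtain ⟨c, hc⟩ := hV m
  obtain ⟨c', hc'⟩ := hV' m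
  refine ⟨c * c', fun x => ?_⟩
  rw [ContinuousMap.mul_apply, ← hc x, ← hc' x, Fintype.sum_prod_type, sum_mul_sum]
  refine sum_congr rfl fun a _ => sum_congr rfl fun b _ => ?_
  rw [ContinuousMap.mul_apply, ContinuousMap.mul_apply, map_mul]
  ring

lemma good_star {F : C(X, ℂ)} (hF : Good T π F) : Good T π (star F) := by
  obtain ⟨J, iJ, V, ⟨j, hj⟩, hV⟩ := hF
  refine ⟨J, iJ, fun t => star (V t), ⟨j, by
    show star (V j) = star F
    rw [hj]⟩, fun m => ?_⟩
  obtain ⟨c, hc⟩ := hV m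
  refine ⟨star c, fun x => ?_⟩
  rw [ContinuousMap.star_apply, ← hc x, star_sum]
  refine sum_congr rfl fun a _ => ?_
  rw [ContinuousMap.star_apply, ContinuousMap.star_apply, star_mul']
  simp

lemma good_base {S : Y → Y} (hS : Continuous S) (hπ : Continuous π) (hT : ∀ x, π (T x) = S (π x)) (f : C(Y, ℂ)) :
    Good T π (f.comp ⟨π, hπ⟩) := by
  refine ⟨Unit, inferInstance, fun _ => f.comp ⟨π, hπ⟩, ⟨(), rfl⟩, fun m => ?_⟩
  have hit : ∀ x, π (T^[m] x) = S^[m] (π x) := fun x => (Function.Semiconj.iterate_right hT m) x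
  refine ⟨f * star (f.comp ⟨S^[m], hS.iterate m⟩), fun x => ?_⟩
  simp [hit]

variable [CompactSpace X]
variable {ι : Type} {l : Filter ι} {w : ι → ℕ → ℝ} {M : ι → ℕ} {C : ℝ} {τ : ι → ℝ} {u : ℕ → ℂ}

theorem short_good (hF : Fam l w M C τ) (hu : ∀ n, ‖u n‖ ≤ 1) (x₀ : X)
    (hK : ∀ c : C(Y, ℂ), Kills u l w M (fun n => c (π (T^[n] x₀)))) {F : C(X, ℂ)} (hG : Good T π F) :
    Short u l w M (fun n => F (T^[n] x₀)) := by
  obtain ⟨J, iJ, V, ⟨j₀, hj⟩, hV⟩ := hG
  set R : ℝ := Real.sqrt (∑ j, ‖V j‖ ^ 2) + 1 with hR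
  have hR1 : 1 ≤ R := by
    rw [hR]
    have := Real.sqrt_nonneg (∑ j, ‖V j‖ ^ 2)
    linarith
  have hR0 : 0 < R := by linarith
  set v : ℕ → EuclideanSpace ℂ J := fun n => ((R⁻¹ : ℝ) : ℂ) • WithLp.toLp 2 (fun j => V j (T^[n] x₀)) with hv
  have hv1 : ∀ n, ‖v n‖ ≤ 1 := by
    intro n
    rw [hv]
    show ‖((R⁻¹ : ℝ) : ℂ) • WithLp.toLp 2 (fun j => V j (T^[n] x₀))‖ ≤ 1
    rw [norm_smul, Complex.norm_real, Real.norm_of_nonneg (by positivity), EuclideanSpace.norm_eq]
    rw [inv_mul_le_iff₀ hR0, mul_one]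
    have h1 : Real.sqrt (∑ j, ‖(WithLp.toLp 2 (fun j => V j (T^[n] x₀)) : EuclideanSpace ℂ J) j‖ ^ 2) ≤
        Real.sqrt (∑ j, ‖V j‖ ^ 2) := by
      apply Real.sqrt_le_sqrt
      refine sum_le_sum fun j _ => ?_
      apply pow_le_pow_left₀ (norm_nonneg _)
      exact (V j).norm_coe_le_norm _
    rw [hR]
    linarith
  have hk : ∀ k : ℕ, 1 ≤ k → ∀ ε : ℝ, 0 < ε → ∀ᶠ i in l,
      ‖L (w i) (M i) (fun n => (starRingEnd ℂ) (u n) * u (n + k) * inner ℂ (v n) (v (n + k)))‖ ≤ ε := by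
    intro k hk1 ε hε
    obtain ⟨c, hc⟩ := hV k
    have h1 := ((hK (star c)).smul (((R⁻¹ : ℝ) : ℂ) * ((R⁻¹ : ℝ) : ℂ))) k hk1 ε hε
    filter_upwards [h1] with i h2
    refine le_trans (le_of_eq ?_) h2
    congr 2
    funext n
    congr 1
    rw [hv]
    show inner ℂ (((R⁻¹ : ℝ) : ℂ) • WithLp.toLp 2 (fun j => V j (T^[n] x₀))) (((R⁻¹ : ℝ) : ℂ) • WithLp.toLp 2 (fun j => V j (T^[n + k] x₀))) = _
    rw [inner_smul_left, inner_smul_right, Complex.conj_ofReal, ← mul_assoc]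
    congr 1
    rw [ContinuousMap.star_apply, ← hc (T^[n] x₀), PiLp.inner_apply, star_sum]
    refine sum_congr rfl fun j _ => ?_
    rw [← Function.iterate_add_apply, add_comm k n]
    simp [mul_comm]
  have h3 := short_coord hF hu v hv1 hk (fun n => ((R⁻¹ : ℝ) : ℂ) * F (T^[n] x₀)) (fun n H => by
    have e1 : ∑ m ∈ range H, u (n + m) * (((R⁻¹ : ℝ) : ℂ) * F (T^[n + m] x₀)) =
        (∑ m ∈ range H, u (n + m) • v (n + m)) j₀ := by
      rw [hv]
      simp [hj]
    rw [e1]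
    exact PiLp.norm_apply_le _ _)
  have h4 := h3.smul hF (R : ℂ)
  have e : (fun n => (R : ℂ) * (((R⁻¹ : ℝ) : ℂ) * F (T^[n] x₀))) = fun n => F (T^[n] x₀) := by
    funext n
    rw [← mul_assoc, ← Complex.ofReal_mul, mul_inv_cancel₀ hR0.ne', Complex.ofReal_one, one_mul]
  rw [e] at h4
  exact h4

/-- the algebra spanned by the functions of finite rank -/
noncomputable def alg (T : X → X) (π : X → Y) (h1 : Good T π 1) : StarSubalgebra ℂ C(X, ℂ) where
  carrier := (Submodule.span ℂ {F : C(X, ℂ) | Good T π F} : Set C(X, ℂ))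
  mul_mem' := by
    intro a b ha hb
    have h2 : a * b ∈ (Submodule.span ℂ {F : C(X, ℂ) | Good T π F}) * (Submodule.span ℂ {F : C(X, ℂ) | Good T π F}) :=
      Submodule.mul_mem_mul ha hb
    rw [Submodule.span_mul_span] at h2
    refine Submodule.span_mono ?_ h2
    rintro _ ⟨F, hF, G, hG, rfl⟩
    exact good_mul hF hG
  add_mem' := by
    intro a b ha hb
    exact Submodule.add_mem _ ha hb
  algebraMap_mem' := by
    intro r
    have e : algebraMap ℂ C(X, ℂ) r = r • (1 : C(X, ℂ)) := Algebra.algebraMap_eq_smul_one r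
    rw [e]
    exact Submodule.smul_mem _ _ (Submodule.subset_span h1)
  star_mem' := by
    intro a ha
    have ha' : a ∈ Submodule.span ℂ {F : C(X, ℂ) | Good T π F} := ha
    show star a ∈ Submodule.span ℂ {F : C(X, ℂ) | Good T π F}
    induction ha' using Submodule.span_induction with
    | mem x hx => exact Submodule.subset_span (good_star hx)
    | zero =>
      rw [star_zero]
      exact Submodule.zero_mem _
    | add x y hx hy h3 h4 =>
      rw [star_add]
      exact Submodule.add_mem _ (h3 hx) (h4 hy)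
    | smul c x hx h3 =>
      rw [star_smul]
      exact Submodule.smul_mem _ _ (h3 hx)

theorem short_all (hF : Fam l w M C τ) (hu : ∀ n, ‖u n‖ ≤ 1) (x₀ : X)
    (hK : ∀ c : C(Y, ℂ), Kills u l w M (fun n => c (π (T^[n] x₀)))) (h1 : Good T π 1)
    (hsep : ∀ x x' : X, x ≠ x' → ∃ F : C(X, ℂ), Good T π F ∧ F x ≠ F x') (F : C(X, ℂ)) :
    Short u l w M (fun n => F (T^[n] x₀)) := by
  have h2 : (alg T π h1).toSubalgebra.SeparatesPoints := by
    intro x x' hx
    obtain ⟨G, hG, hne⟩ := hsep x x' hx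
    refine ⟨G, ⟨G, ?_, rfl⟩, hne⟩
    exact Submodule.subset_span hG
  have h3 := ContinuousMap.starSubalgebra_topologicalClosure_eq_top_of_separatesPoints (alg T π h1) h2
  have h4 : F ∈ (alg T π h1).topologicalClosure := by
    rw [h3]
    trivial
  have h5 : F ∈ closure ((alg T π h1) : Set C(X, ℂ)) := h4
  apply Short.approx hF hu
  intro ε hε
  rw [Metric.mem_closure_iff] at h5
  obtain ⟨G, hG, hd⟩ := h5 ε hε
  refine ⟨fun n => G (T^[n] x₀), ?_, fun n => ?_⟩
  · have hG' : G ∈ Submodule.span ℂ {F : C(X, ℂ) | Good T π F} := hG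
    clear hd hG
    induction hG' using Submodule.span_induction with
    | mem x hx => exact short_good hF hu x₀ hK hx
    | zero => exact Short.zero
    | add x y hx hy h3 h4 =>
      have := h3.add hF h4
      exact this
    | smul c x hx h3 =>
      have := h3.smul hF c
      exact this
  · rw [dist_eq_norm] at hd
    exact ((F - G).norm_coe_le_norm (T^[n] x₀)).trans hd.le

end

end Pool.Agent.Y842.CX
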