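import Pool.Agent.Y842.CX.Skew
import Pool.Agent.Y842.PH.Sqf
import Pool.Agent.Y842.EL.One

/-!
Library Y842.CX (helper842), part 5: natural averages.
-/

set_option autoImplicit false

open Finset Filter Topology

namespace Pool.Agent.Y842.CX

open Pool.Agent.Helper602.MK (ee)
open Pool.Agent.Helper602.MK.N_J1c (c_ee_add c_ee_int c_norm_ee)
open Pool.Agent.Y842.PH

/-- natural averages -/
noncomputable def natw (N n : ℕ) : ℝ := if n < N then 1 / (N : ℝ) else 0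

lemma natw_wt (N : ℕ) (hN : 1 ≤ N) : Wt (natw N) N 1 (2 / N) := by
  have hN0 : (0 : ℝ) < N := by exact_mod_cast hN
  refine ⟨fun n => ?_, fun n hn => ?_, ?_, ?_⟩
  · unfold natw
    split_ifs
    · positivity
    · exact le_rfl
  · unfold natw
    rw [if_neg (by omega)]
  · have e : ∑ n ∈ range N, natw N n = ∑ n ∈ range N, 1 / (N : ℝ) :=
      sum_congr rfl fun n hn => by
        unfold natw
        rw [if_pos (mem_range.1 hn)]
    rw [e, sum_const, card_range, nsmul_eq_mul]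
    rw [mul_one_div_cancel hN0.ne']
  · obtain ⟨K, rfl⟩ : ∃ K, N = K + 1 := ⟨N - 1, by omega⟩
    rw [sum_range_succ]
    have e1 : ∑ n ∈ range K, |natw (K + 1) (n + 1) - natw (K + 1) n| = 0 := by
      refine sum_eq_zero fun n hn => ?_
      rw [mem_range] at hn
      unfold natw
      rw [if_pos (by omega), if_pos (by omega), sub_self, abs_zero]
    have e2 : |natw (K + 1) (K + 1) - natw (K + 1) K| = 1 / ((K + 1 : ℕ) : ℝ) := by
      unfold natw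
      rw [if_neg (by omega), if_pos (by omega), zero_sub, abs_neg, abs_of_pos (by positivity)]
    have e3 : |natw (K + 1) 0| = 1 / ((K + 1 : ℕ) : ℝ) := by
      unfold natw
      rw [if_pos (by omega), abs_of_pos (by positivity)]
    rw [e1, e2, e3]
    apply le_of_eq
    ring

/-- the filter: large numbers outside `E` -/
def flt (E : Set ℕ) : Filter ℕ := atTop ⊓ 𝓟 Eᶜ

lemma flt_iff (E : Set ℕ) (P : ℕ → Prop) : (∀ᶠ N in flt E, P N) ↔ ∃ N₀ : ℕ, ∀ N : ℕ, N₀ ≤ N → N ∉ E → P N := by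
  unfold flt
  rw [eventually_inf_principal, eventually_atTop]
  rfl

lemma fam_nat (E : Set ℕ) : Fam (flt E) natw (fun N => N) 1 (fun N => 2 / (N : ℝ)) := by
  refine ⟨?_, ?_⟩
  · rw [flt_iff]
    exact ⟨1, fun N hN _ => natw_wt N hN⟩
  · exact (tendsto_const_div_atTop_nhds_zero_nat 2).mono_left inf_le_left

lemma L_nat {V : Type*} [NormedAddCommGroup V] [InnerProductSpace ℂ V] (N : ℕ) (x : ℕ → V) :
    L (natw N) N x = (1 / (N : ℂ)) • ∑ n ∈ range N, x n := by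
  unfold L
  rw [smul_sum]
  refine sum_congr rfl fun n hn => ?_
  unfold natw
  rw [if_pos (mem_range.1 hn)]
  push_cast
  rfl

lemma abel (ρ a : ℕ → ℂ) (N : ℕ) : ∑ n ∈ range N, ρ n * a n =
    ρ N * ∑ n ∈ range N, a n - ∑ n ∈ range N, (ρ (n + 1) - ρ n) * ∑ m ∈ range (n + 1), a m := by
  induction N with
  | zero => simp
  | succ N ih =>
    rw [sum_range_succ, ih, sum_range_succ (fun n => (ρ (n + 1) - ρ n) * ∑ m ∈ range (n + 1), a m)]
    rw [sum_range_succ a]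
    ring

/-- sums with weights of bounded variation -/
lemma bv_sum (ρ a : ℕ → ℂ) (B D : ℝ) (hD : 0 ≤ D) (N : ℕ) (hρ : ‖ρ N‖ ≤ B)
    (hρ' : ∑ n ∈ range N, ‖ρ (n + 1) - ρ n‖ ≤ B) (hS : ∀ y ≤ N, ‖∑ n ∈ range y, a n‖ ≤ D) :
    ‖∑ n ∈ range N, ρ n * a n‖ ≤ 2 * B * D := by
  rw [abel]
  refine (norm_sub_le _ _).trans ?_
  have hB : 0 ≤ B := (norm_nonneg _).trans hρ
  have h1 : ‖ρ N * ∑ n ∈ range N, a n‖ ≤ B * D := by
    rw [norm_mul]
    exact mul_le_mul hρ (hS N le_rfl) (norm_nonneg _) hB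
  have h2 : ‖∑ n ∈ range N, (ρ (n + 1) - ρ n) * ∑ m ∈ range (n + 1), a m‖ ≤ B * D := by
    refine (norm_sum_le _ _).trans ?_
    calc ∑ n ∈ range N, ‖(ρ (n + 1) - ρ n) * ∑ m ∈ range (n + 1), a m‖ ≤
        ∑ n ∈ range N, ‖ρ (n + 1) - ρ n‖ * D := by
          refine sum_le_sum fun n hn => ?_
          rw [mem_range] at hn
          rw [norm_mul]
          exact mul_le_mul_of_nonneg_left (hS (n + 1) (by omega)) (norm_nonneg _)
      _ = (∑ n ∈ range N, ‖ρ (n + 1) - ρ n‖) * D := by rw [sum_mul]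
      _ ≤ B * D := mul_le_mul_of_nonneg_right hρ' hD
  linarith

/-- almost periodic scale by scale: at every large scale `N` close in the mean to a sum of boundedly many phases,
with coefficients of bounded variation; frequencies and coefficients may depend on `N` -/
def AP (b : ℕ → ℂ) : Prop :=
  ∀ ε : ℝ, 0 < ε → ∃ J N₀ : ℕ, ∀ N : ℕ, N₀ ≤ N → ∃ (ρ : Fin J → ℕ → ℂ) (α : Fin J → ℝ),
    (∀ j n, ‖ρ j n‖ ≤ J) ∧ (∀ j, ∑ n ∈ range N, ‖ρ j (n + 1) - ρ j n‖ ≤ J) ∧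
      ∑ n ∈ range N, ‖b n - ∑ j, ρ j n * ee (α j * n)‖ ≤ ε * N

lemma kills_AP (f : ℕ → ℤ) (hb : ∀ n, |f n| ≤ 1) (E : Set ℕ) (hE : ∀ h : ℕ, 1 ≤ h → ∀ ε : ℝ, 0 < ε →
      ∃ N₀ : ℕ, ∀ N : ℕ, N₀ ≤ N → N ∉ E → ∀ α : ℝ, ‖Cr f h N α‖ ≤ ε * N) (b : ℕ → ℂ) (hAP : AP b) :
    Kills (fun n => (f n : ℂ)) (flt E) natw (fun N => N) b := by
  intro k hk ε hε
  obtain ⟨J, N₀, h1⟩ := hAP (ε / 2) (by positivity)
  set η : ℝ := min 1 (ε / (4 * (J + 1) ^ 2)) with hη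
  have hη0 : 0 < η := lt_min one_pos (by positivity)
  have hη1 : η ≤ 1 := min_le_left _ _
  have hη2 : η ≤ ε / (4 * (J + 1) ^ 2) := min_le_right _ _
  obtain ⟨N₁, hN₁⟩ := hE k hk (η ^ 2 / 16) (by positivity)
  obtain ⟨N₂, hN₂⟩ := exists_nat_ge (8 / η)
  rw [flt_iff]
  refine ⟨N₀ + N₁ + N₂ + 1, fun N hN hNE => ?_⟩
  have hN0 : (0 : ℝ) < N := by exact_mod_cast (by omega : 0 < N)
  have hf1 : ∀ n, ‖(f n : ℂ)‖ ≤ 1 := by
    intro n
    rw [Complex.norm_intCast]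
    exact_mod_cast hb n
  have hff : ∀ n, ‖(f n : ℂ) * f (n + k)‖ ≤ 1 := by
    intro n
    rw [norm_mul]
    exact mul_le_one₀ (hf1 _) (norm_nonneg _) (hf1 _)
  obtain ⟨ρ, α, hρ1, hρ2, hρ3⟩ := h1 N (by omega)
  have h2 : ∀ j, ‖∑ n ∈ range N, ρ j n * (((f n : ℂ) * f (n + k)) * ee (α j * n))‖ ≤ 2 * J * (η * N) := fun j =>
    bv_sum (ρ j) _ J (η * N) (by positivity) N (hρ1 j N) (hρ2 j) (fun y hy =>
      part N (fun n => (f n : ℂ) * f (n + k)) hff η hη0 hη1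
      (hN₂.trans (by exact_mod_cast (by omega : N₂ ≤ N))) (fun β => hN₁ N (by omega) hNE β) y hy (α j))
  rw [L_nat, norm_smul]
  have e1 : ∑ n ∈ range N, (starRingEnd ℂ) (f n : ℂ) * (f (n + k) : ℂ) * b n =
      ∑ j, ∑ n ∈ range N, ρ j n * (((f n : ℂ) * f (n + k)) * ee (α j * n)) +
      ∑ n ∈ range N, ((f n : ℂ) * f (n + k)) * (b n - ∑ j, ρ j n * ee (α j * n)) := by
    rw [sum_comm, ← sum_add_distrib]
    refine sum_congr rfl fun n _ => ?_
    rw [map_intCast, mul_sub, mul_sum]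
    have e2 : ∑ j, ρ j n * (((f n : ℂ) * f (n + k)) * ee (α j * n)) =
        ∑ j, (f n : ℂ) * f (n + k) * (ρ j n * ee (α j * n)) := sum_congr rfl fun j _ => by ring
    rw [e2]
    ring
  have h3 : ‖∑ n ∈ range N, (starRingEnd ℂ) (f n : ℂ) * (f (n + k) : ℂ) * b n‖ ≤ ε * N := by
    rw [e1]
    refine (norm_add_le _ _).trans ?_
    have h4 : ‖∑ j, ∑ n ∈ range N, ρ j n * (((f n : ℂ) * f (n + k)) * ee (α j * n))‖ ≤ ε / 2 * N := by
      refine (norm_sum_le _ _).trans ?_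
      refine (sum_le_sum fun j _ => h2 j).trans ?_
      rw [sum_const, card_univ, Fintype.card_fin, nsmul_eq_mul]
      have hJ : (0 : ℝ) ≤ J := Nat.cast_nonneg J
      calc (J : ℝ) * (2 * J * (η * N)) = 2 * J ^ 2 * η * N := by ring
        _ ≤ 2 * (J + 1) ^ 2 * (ε / (4 * (J + 1) ^ 2)) * N := by
            apply mul_le_mul_of_nonneg_right _ hN0.le
            apply mul_le_mul _ hη2 hη0.le (by positivity)
            apply mul_le_mul_of_nonneg_left _ (by norm_num)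
            exact pow_le_pow_left₀ hJ (by linarith) 2
        _ = ε / 2 * N := by
            field_simp
            ring
    have h5 : ‖∑ n ∈ range N, ((f n : ℂ) * f (n + k)) * (b n - ∑ j, ρ j n * ee (α j * n))‖ ≤ ε / 2 * N := by
      refine (norm_sum_le _ _).trans (le_trans (sum_le_sum fun n _ => ?_) hρ3)
      rw [norm_mul]
      calc ‖(f n : ℂ) * f (n + k)‖ * ‖b n - ∑ j, ρ j n * ee (α j * n)‖ ≤ 1 * ‖b n - ∑ j, ρ j n * ee (α j * n)‖ :=
            mul_le_mul_of_nonneg_right (hff n) (norm_nonneg _)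
        _ = _ := one_mul _
    linarith
  have e2 : ‖(1 / (N : ℂ))‖ = 1 / (N : ℝ) := by
    rw [norm_div, norm_one, Complex.norm_natCast]
  rw [e2, one_div, inv_mul_le_iff₀ hN0]
  linarith

/-- extensions with a space on which the group acts -/
def ext {Y K Z : Type} [SMul K Z] (S : Y → Y) (φ : Y → K) (x : Y × Z) : Y × Z := (S x.1, φ x.1 • x.2)

lemma ext_iter {Y K Z : Type} [Group K] [MulAction K Z] (S : Y → Y) (φ : Y → K) (y : Y) (z : Z) (n : ℕ) :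
    (ext S φ)^[n] (y, z) = (((skew S φ)^[n] (y, 1)).1, ((skew S φ)^[n] (y, 1)).2 • z) := by
  induction n with
  | zero => simp
  | succ n ih =>
    rw [Function.iterate_succ_apply', ih, Function.iterate_succ_apply']
    unfold ext skew
    simp only
    rw [mul_smul]

/-- the theorem for natural averages outside `E` -/
theorem main_nat (f : ℕ → ℤ) (hb : ∀ n, |f n| ≤ 1) (E : Set ℕ) (hE : ∀ h : ℕ, 1 ≤ h → ∀ ε : ℝ, 0 < ε →
      ∃ N₀ : ℕ, ∀ N : ℕ, N₀ ≤ N → N ∉ E → ∀ α : ℝ, ‖Cr f h N α‖ ≤ ε * N)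
    {Y K Z : Type} [TopologicalSpace Y] [CompactSpace Y] [T2Space Y] [TopologicalSpace K] [Group K]
    [IsTopologicalGroup K] [CompactSpace K] [TopologicalSpace Z] [MulAction K Z] [ContinuousSMul K Z]
    (hK : RepSep K) (S : Y → Y) (hS : Continuous S) (φ : Y → K) (hφ : Continuous φ) (y : Y)
    (hy : ∀ c : C(Y, ℂ), AP (fun n => c (S^[n] y))) (z : Z) (F : C(Y × Z, ℂ)) :
    (∀ ε : ℝ, 0 < ε → ∃ N₀ : ℕ, ∀ N : ℕ, N₀ ≤ N → N ∉ E →
      ‖∑ n ∈ Icc 1 N, (f n : ℂ) * F ((ext S φ)^[n] (y, z))‖ ≤ ε * N) ∧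
    (∀ ε : ℝ, 0 < ε → ∃ H₀ : ℕ, ∀ H : ℕ, H₀ ≤ H → ∃ N₀ : ℕ, ∀ N : ℕ, N₀ ≤ N → N ∉ E →
      ∑ n ∈ Icc 1 N, ‖∑ m ∈ Icc 1 H, (f (n + m) : ℂ) * F ((ext S φ)^[n + m] (y, z))‖ ≤ ε * (H * N)) := by
  have hf1 : ∀ n, ‖(f n : ℂ)‖ ≤ 1 := by
    intro n
    rw [Complex.norm_intCast]
    exact_mod_cast hb n
  set G : C(Y × K, ℂ) := ⟨fun x => F (x.1, x.2 • z), by fun_prop⟩ with hG
  have hFG : ∀ n, F ((ext S φ)^[n] (y, z)) = G ((skew S φ)^[n] (y, 1)) := by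
    intro n
    rw [ext_iter]
    rfl
  have h1 : Short (fun n => (f n : ℂ)) (flt E) natw (fun N => N) (fun n => G ((skew S φ)^[n] (y, 1))) :=
    short_skew (fam_nat E) hf1 hK S hS φ hφ y (fun c => kills_AP f hb E hE _ (hy c)) 1 G
  have hB : ∀ n, ‖G ((skew S φ)^[n] (y, 1))‖ ≤ ‖G‖ := fun n => G.norm_coe_le_norm _
  set a : ℕ → ℂ := fun n => (f n : ℂ) * G ((skew S φ)^[n] (y, 1)) with ha
  have ha1 : ∀ n, ‖a n‖ ≤ ‖G‖ := by
    intro n
    rw [ha]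
    show ‖(f n : ℂ) * G ((skew S φ)^[n] (y, 1))‖ ≤ ‖G‖
    rw [norm_mul]
    calc ‖(f n : ℂ)‖ * ‖G ((skew S φ)^[n] (y, 1))‖ ≤ 1 * ‖G‖ :=
          mul_le_mul (hf1 n) (hB n) (norm_nonneg _) zero_le_one
      _ = ‖G‖ := one_mul _
  have hG0 : 0 ≤ ‖G‖ := norm_nonneg _
  have hshift : ∀ (g : ℕ → ℝ) (D : ℝ), (∀ n, 0 ≤ g n) → (∀ n, g n ≤ D) → ∀ N : ℕ,
      ∑ n ∈ Icc 1 N, g (n + 1) ≤ ∑ n ∈ range N, g n + 2 * D := by
    intro g D hg0 hgD N
    have e1 : ∑ n ∈ Icc 1 N, g (n + 1) = ∑ n ∈ range N, g (n + 2) := by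
      rw [range_eq_Ico, sum_Ico_add' (fun n => g (n + 1)) 0 N 1]
      rfl
    have e2 : ∑ n ∈ range N, g (n + 2) ≤ ∑ n ∈ range (N + 2), g n := by
      rw [sum_range_succ' g (N + 1), sum_range_succ' (fun n => g (n + 1)) N]
      have := hg0 0
      have := hg0 (0 + 1)
      linarith
    have e3 : ∑ n ∈ range (N + 2), g n ≤ ∑ n ∈ range N, g n + 2 * D := by
      rw [sum_range_succ, sum_range_succ]
      have := hgD N
      have := hgD (N + 1)
      linarith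
    rw [e1]
    linarith
  refine ⟨fun ε hε => ?_, fun ε hε => ?_⟩
  · have h2 := long_of_short (fam_nat E) hf1 ‖G‖ hB h1 (ε / 2) (by positivity)
    rw [flt_iff] at h2
    obtain ⟨N₀, h3⟩ := h2
    obtain ⟨N₁, hN₁⟩ := exists_nat_ge (4 * ‖G‖ / ε)
    refine ⟨N₀ + N₁ + 1, fun N hN hNE => ?_⟩
    have hN0 : (0 : ℝ) < N := by exact_mod_cast (by omega : 0 < N)
    have h4 := h3 N (by omega) hNE
    rw [L_nat, norm_smul] at h4
    have e2 : ‖(1 / (N : ℂ))‖ = 1 / (N : ℝ) := by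
      rw [norm_div, norm_one, Complex.norm_natCast]
    rw [e2, one_div, inv_mul_le_iff₀ hN0] at h4
    have h5 : 4 * ‖G‖ / ε ≤ N := hN₁.trans (by exact_mod_cast (by omega : N₁ ≤ N))
    rw [div_le_iff₀ hε] at h5
    simp only [hFG]
    have e3 : ∑ n ∈ Icc 1 N, a n = ∑ n ∈ range N, a n + (a N - a 0) := by
      have e4 := sum_range_succ a N
      have e5 := sum_range_succ' a N
      have e6 : ∑ n ∈ Icc 1 N, a n = ∑ n ∈ range N, a (n + 1) := by
        rw [range_eq_Ico, sum_Ico_add' a 0 N 1]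
        rfl
      rw [e6]
      linear_combination e4 - e5
    show ‖∑ n ∈ Icc 1 N, a n‖ ≤ ε * N
    rw [e3]
    have h6 := norm_add_le (∑ n ∈ range N, a n) (a N - a 0)
    have h7 := norm_sub_le (a N) (a 0)
    have h8 := ha1 N
    have h9 := ha1 0
    have h10 : ‖∑ n ∈ range N, a n‖ ≤ N * (ε / 2) := h4
    linarith
  · obtain ⟨H₀, h2⟩ := h1 (ε / 2) (by positivity)
    refine ⟨H₀, fun H hH => ?_⟩
    have h3 := h2 H hH
    rw [flt_iff] at h3
    obtain ⟨N₀, h4⟩ := h3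
    obtain ⟨N₁, hN₁⟩ := exists_nat_ge (4 * ‖G‖ / ε)
    refine ⟨N₀ + N₁ + 1, fun N hN hNE => ?_⟩
    have hN0 : (0 : ℝ) < N := by exact_mod_cast (by omega : 0 < N)
    have h5 := h4 N (by omega) hNE
    have h6 : 4 * ‖G‖ / ε ≤ N := hN₁.trans (by exact_mod_cast (by omega : N₁ ≤ N))
    rw [div_le_iff₀ hε] at h6
    set g : ℕ → ℝ := fun n => ‖∑ m ∈ range H, a (n + m)‖ with hg
    have e1 : ∑ n ∈ range N, natw N n * ‖∑ m ∈ range H, (f (n + m) : ℂ) * G ((skew S φ)^[n + m] (y, 1))‖ =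
        (∑ n ∈ range N, g n) / N := by
      rw [sum_div]
      refine sum_congr rfl fun n hn => ?_
      unfold natw
      rw [if_pos (mem_range.1 hn), hg]
      show 1 / (N : ℝ) * ‖∑ m ∈ range H, a (n + m)‖ = ‖∑ m ∈ range H, a (n + m)‖ / N
      ring
    have h5' : (∑ n ∈ range N, g n) / N ≤ ε / 2 * H := by
      rw [← e1]
      exact h5
    rw [div_le_iff₀ hN0] at h5'
    have hgD : ∀ n, g n ≤ H * ‖G‖ := by
      intro n
      rw [hg]
      refine (norm_sum_le _ _).trans ?_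
      refine (sum_le_sum fun m _ => ha1 _).trans ?_
      rw [sum_const, card_range, nsmul_eq_mul]
    have h7 := hshift g (H * ‖G‖) (fun n => norm_nonneg _) hgD N
    have e2 : ∑ n ∈ Icc 1 N, ‖∑ m ∈ Icc 1 H, (f (n + m) : ℂ) * F ((ext S φ)^[n + m] (y, z))‖ =
        ∑ n ∈ Icc 1 N, g (n + 1) := by
      refine sum_congr rfl fun n _ => ?_
      simp only [hFG]
      rw [hg]
      show ‖∑ m ∈ Icc 1 H, a (n + m)‖ = ‖∑ m ∈ range H, a (n + 1 + m)‖
      have e4 : ∑ m ∈ Icc 1 H, a (n + m) = ∑ m ∈ range H, a (n + (m + 1)) := by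
        rw [range_eq_Ico, sum_Ico_add' (fun m => a (n + m)) 0 H 1]
        rfl
      rw [e4]
      congr 1
      refine sum_congr rfl fun m _ => ?_
      congr 1
      ring
    rw [e2]
    have h8 : (H : ℝ) * (4 * ‖G‖) ≤ H * (N * ε) := mul_le_mul_of_nonneg_left h6 (Nat.cast_nonneg H)
    calc ∑ n ∈ Icc 1 N, g (n + 1) ≤ ∑ n ∈ range N, g n + 2 * (H * ‖G‖) := h7
      _ ≤ ε / 2 * H * N + 2 * (H * ‖G‖) := by linarith
      _ ≤ ε * (H * N) := by nlinarith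

end Pool.Agent.Y842.CX
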