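import Pool.Agent.Y842.CX.Ext

/-!
Library Y842.CX (helper842), part 4: skew products with compact groups.
-/

set_option autoImplicit false

open Finset Filter Topology

namespace Pool.Agent.Y842.CX

/-- the skew product `(y, k) ↦ (S y, φ(y) k)` -/
def skew {Y K : Type} [Mul K] (S : Y → Y) (φ : Y → K) (x : Y × K) : Y × K := (S x.1, φ x.1 * x.2)

/-- the finite-dimensional unitary representations separate the points -/
def RepSep (K : Type) [TopologicalSpace K] [Group K] : Prop :=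
  ∀ a b : K, a ≠ b → ∃ (r : ℕ) (ρ : K →* Matrix.unitaryGroup (Fin r) ℂ), Continuous ρ ∧ ρ a ≠ ρ b

section
variable {Y K : Type} [TopologicalSpace Y] [TopologicalSpace K] [Group K] [IsTopologicalGroup K]

lemma iter (S : Y → Y) (hS : Continuous S) (φ : Y → K) (hφ : Continuous φ) (m : ℕ) :
    ∃ Φ : Y → K, Continuous Φ ∧ ∀ x : Y × K, (skew S φ)^[m] x = (S^[m] x.1, Φ x.1 * x.2) := by
  induction m with
  | zero => exact ⟨fun _ => 1, continuous_const, fun x => by simp⟩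
  | succ m ih =>
    obtain ⟨Φ, h1, h2⟩ := ih
    refine ⟨fun y => φ (S^[m] y) * Φ y, (hφ.comp (hS.iterate m)).mul h1, fun x => ?_⟩
    rw [Function.iterate_succ_apply', h2, Function.iterate_succ_apply']
    unfold skew
    simp only
    rw [mul_assoc]

lemma tr_eq {r : ℕ} (A B : Matrix (Fin r) (Fin r) ℂ) :
    ∑ t : Fin r × Fin r, A t.1 t.2 * (starRingEnd ℂ) (B t.1 t.2) = (A * B.conjTranspose).trace := by
  rw [Fintype.sum_prod_type]
  unfold Matrix.trace
  refine sum_congr rfl fun i _ => ?_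
  rw [Matrix.diag_apply, Matrix.mul_apply]
  rfl

lemma good_rep (S : Y → Y) (hS : Continuous S) (φ : Y → K) (hφ : Continuous φ) {r : ℕ}
    (ρ : K →* Matrix.unitaryGroup (Fin r) ℂ) (hρ : Continuous ρ) (i j : Fin r) :
    Good (skew S φ) (Prod.fst : Y × K → Y)
      ⟨fun x => (ρ x.2 : Matrix (Fin r) (Fin r) ℂ) i j,
        (continuous_subtype_val.comp (hρ.comp continuous_snd)).matrix_elem i j⟩ := by
  refine ⟨Fin r × Fin r, inferInstance, fun t => ⟨fun x => (ρ x.2 : Matrix (Fin r) (Fin r) ℂ) t.1 t.2,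
      (continuous_subtype_val.comp (hρ.comp continuous_snd)).matrix_elem t.1 t.2⟩,
    ⟨(i, j), rfl⟩, fun m => ?_⟩
  obtain ⟨Φ, h1, h2⟩ := iter S hS φ hφ m
  refine ⟨⟨fun y => ((ρ (Φ y) : Matrix (Fin r) (Fin r) ℂ).conjTranspose).trace, by fun_prop⟩, fun x => ?_⟩
  show ∑ t : Fin r × Fin r, (ρ x.2 : Matrix (Fin r) (Fin r) ℂ) t.1 t.2 *
    (starRingEnd ℂ) ((ρ ((skew S φ)^[m] x).2 : Matrix (Fin r) (Fin r) ℂ) t.1 t.2) =
      ((ρ (Φ x.1) : Matrix (Fin r) (Fin r) ℂ).conjTranspose).trace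
  rw [tr_eq, h2 x]
  show ((ρ x.2 : Matrix (Fin r) (Fin r) ℂ) * (ρ (Φ x.1 * x.2) : Matrix (Fin r) (Fin r) ℂ).conjTranspose).trace = _
  rw [map_mul]
  have e1 : ((ρ (Φ x.1) * ρ x.2 : Matrix.unitaryGroup (Fin r) ℂ) : Matrix (Fin r) (Fin r) ℂ) =
      (ρ (Φ x.1) : Matrix (Fin r) (Fin r) ℂ) * (ρ x.2 : Matrix (Fin r) (Fin r) ℂ) := rfl
  rw [e1, Matrix.conjTranspose_mul, ← mul_assoc]
  have e2 : (ρ x.2 : Matrix (Fin r) (Fin r) ℂ) * (ρ x.2 : Matrix (Fin r) (Fin r) ℂ).conjTranspose = 1 := by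
    have := (ρ x.2).2
    rw [Matrix.mem_unitaryGroup_iff] at this
    exact this
  rw [e2, one_mul]

variable [CompactSpace Y] [T2Space Y] [CompactSpace K]
variable {ι : Type} {l : Filter ι} {w : ι → ℕ → ℝ} {M : ι → ℕ} {C : ℝ} {τ : ι → ℝ} {u : ℕ → ℂ}

theorem short_skew (hF : Fam l w M C τ) (hu : ∀ n, ‖u n‖ ≤ 1) (hK : RepSep K) (S : Y → Y) (hS : Continuous S)
    (φ : Y → K) (hφ : Continuous φ) (y : Y) (hy : ∀ c : C(Y, ℂ), Kills u l w M (fun n => c (S^[n] y))) (k : K)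
    (F : C(Y × K, ℂ)) : Short u l w M (fun n => F ((skew S φ)^[n] (y, k))) := by
  have hT : ∀ x : Y × K, (Prod.fst (skew S φ x) : Y) = S x.1 := fun x => rfl
  apply short_all (T := skew S φ) (π := (Prod.fst : Y × K → Y)) hF hu (y, k)
  · intro c
    have h1 := hy c
    have e : (fun n => c (Prod.fst ((skew S φ)^[n] (y, k)))) = fun n => c (S^[n] y) := by
      funext n
      obtain ⟨Φ, -, h2⟩ := iter S hS φ hφ n
      rw [h2]
    rw [e]
    exact h1
  · have h1 := good_base (T := skew S φ) hS continuous_fst hT (1 : C(Y, ℂ))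
    exact h1
  · rintro ⟨y₁, k₁⟩ ⟨y₂, k₂⟩ hne
    by_cases h1 : y₁ = y₂
    · have h2 : k₁ ≠ k₂ := by
        intro h3
        exact hne (by rw [h1, h3])
      obtain ⟨r, ρ, hρ, h3⟩ := hK k₁ k₂ h2
      have h4 : ∃ i j, (ρ k₁ : Matrix (Fin r) (Fin r) ℂ) i j ≠ (ρ k₂ : Matrix (Fin r) (Fin r) ℂ) i j := by
        by_contra hcon
        push Not at hcon
        apply h3
        apply Subtype.ext
        ext i j
        exact hcon i j
      obtain ⟨i, j, h5⟩ := h4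
      exact ⟨_, good_rep S hS φ hφ ρ hρ i j, h5⟩
    · obtain ⟨f, h2, h3, -⟩ := exists_continuous_zero_one_of_isClosed (isClosed_singleton (x := y₁))
        (isClosed_singleton (x := y₂)) (by
          rw [Set.disjoint_singleton]
          exact h1)
      refine ⟨_, good_base (T := skew S φ) hS continuous_fst hT ⟨fun y => ((f y : ℝ) : ℂ), by fun_prop⟩, ?_⟩
      show ((f y₁ : ℝ) : ℂ) ≠ ((f y₂ : ℝ) : ℂ)
      rw [h2 (Set.mem_singleton y₁), h3 (Set.mem_singleton y₂)]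
      simp

end

end Pool.Agent.Y842.CX
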