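import Mathlib

/-!
Library Y842.CX (helper842), part 1: weighted averages which are nearly invariant under the shift, and the
inequality of van der Corput in a Hilbert space.
-/

set_option autoImplicit false

open Finset

namespace Pool.Agent.Y842.CX

section
variable {V : Type*} [NormedAddCommGroup V] [InnerProductSpace ℂ V]

/-- weighted sums -/
noncomputable def L (w : ℕ → ℝ) (M : ℕ) (x : ℕ → V) : V := ∑ n ∈ range M, (w n : ℂ) • x n

/-- nonnegative weights of total mass at most `C` and total variation at most `τ` -/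
structure Wt (w : ℕ → ℝ) (M : ℕ) (C τ : ℝ) : Prop where
  nn : ∀ n, 0 ≤ w n
  sup : ∀ n, M ≤ n → w n = 0
  tot : ∑ n ∈ range M, w n ≤ C
  tv : |w 0| + ∑ n ∈ range M, |w (n + 1) - w n| ≤ τ

variable {w : ℕ → ℝ} {M : ℕ} {C τ : ℝ}

lemma Wt.C_nonneg (hw : Wt w M C τ) : 0 ≤ C := (sum_nonneg fun n _ => hw.nn n).trans hw.tot

lemma Wt.τ_nonneg (hw : Wt w M C τ) : 0 ≤ τ :=
  (add_nonneg (abs_nonneg _) (sum_nonneg fun _ _ => abs_nonneg _)).trans hw.tv

lemma L_norm_le (hw : Wt w M C τ) (x : ℕ → V) : ‖L w M x‖ ≤ ∑ n ∈ range M, w n * ‖x n‖ := by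
  unfold L
  refine (norm_sum_le _ _).trans (le_of_eq (sum_congr rfl fun n _ => ?_))
  rw [norm_smul, Complex.norm_real, Real.norm_of_nonneg (hw.nn n)]

lemma L_norm (hw : Wt w M C τ) (x : ℕ → V) (B : ℝ) (hB : 0 ≤ B) (hx : ∀ n, ‖x n‖ ≤ B) : ‖L w M x‖ ≤ C * B := by
  refine (L_norm_le hw x).trans ?_
  calc ∑ n ∈ range M, w n * ‖x n‖ ≤ ∑ n ∈ range M, w n * B :=
        sum_le_sum fun n _ => mul_le_mul_of_nonneg_left (hx n) (hw.nn n)
    _ = (∑ n ∈ range M, w n) * B := by rw [sum_mul]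
    _ ≤ C * B := mul_le_mul_of_nonneg_right hw.tot hB

lemma L_add (x y : ℕ → V) : L w M (fun n => x n + y n) = L w M x + L w M y := by
  unfold L
  rw [← sum_add_distrib]
  exact sum_congr rfl fun n _ => smul_add _ _ _

lemma L_sub (x y : ℕ → V) : L w M (fun n => x n - y n) = L w M x - L w M y := by
  unfold L
  rw [← sum_sub_distrib]
  exact sum_congr rfl fun n _ => smul_sub _ _ _

lemma L_sum {ι : Type*} (s : Finset ι) (x : ι → ℕ → V) :
    L w M (fun n => ∑ j ∈ s, x j n) = ∑ j ∈ s, L w M (x j) := by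
  unfold L
  rw [sum_comm]
  exact sum_congr rfl fun n _ => smul_sum

lemma L_smul (c : ℂ) (x : ℕ → V) : L w M (fun n => c • x n) = c • L w M x := by
  unfold L
  rw [smul_sum]
  exact sum_congr rfl fun n _ => smul_comm _ _ _

lemma L_shift1 (hw : Wt w M C τ) (x : ℕ → V) (B : ℝ) (hx : ∀ n, ‖x n‖ ≤ B) :
    ‖L w M (fun n => x (n + 1)) - L w M x‖ ≤ τ * B := by
  have hB : 0 ≤ B := (norm_nonneg _).trans (hx 0)
  have h1 : L w M x = ∑ n ∈ range M, (w (n + 1) : ℂ) • x (n + 1) + (w 0 : ℂ) • x 0 := by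
    unfold L
    rw [← sum_range_succ' (fun n => (w n : ℂ) • x n), sum_range_succ, hw.sup M le_rfl]
    simp
  have h2 : L w M (fun n => x (n + 1)) - L w M x =
      ∑ n ∈ range M, ((w n - w (n + 1) : ℝ) : ℂ) • x (n + 1) - (w 0 : ℂ) • x 0 := by
    rw [h1]
    unfold L
    rw [← sub_sub, ← sum_sub_distrib]
    congr 1
    refine sum_congr rfl fun n _ => ?_
    rw [Complex.ofReal_sub, sub_smul]
  rw [h2]
  refine (norm_sub_le _ _).trans ?_
  have h3 : ‖∑ n ∈ range M, ((w n - w (n + 1) : ℝ) : ℂ) • x (n + 1)‖ ≤ ∑ n ∈ range M, |w (n + 1) - w n| * B := by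
    refine (norm_sum_le _ _).trans (sum_le_sum fun n _ => ?_)
    rw [norm_smul, Complex.norm_real, Real.norm_eq_abs, abs_sub_comm]
    exact mul_le_mul_of_nonneg_left (hx _) (abs_nonneg _)
  have h4 : ‖(w 0 : ℂ) • x 0‖ ≤ |w 0| * B := by
    rw [norm_smul, Complex.norm_real, Real.norm_eq_abs]
    exact mul_le_mul_of_nonneg_left (hx _) (abs_nonneg _)
  rw [← sum_mul] at h3
  calc _ ≤ (∑ n ∈ range M, |w (n + 1) - w n|) * B + |w 0| * B := add_le_add h3 h4
    _ = (|w 0| + ∑ n ∈ range M, |w (n + 1) - w n|) * B := by ring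
    _ ≤ τ * B := mul_le_mul_of_nonneg_right hw.tv hB

lemma L_shift (hw : Wt w M C τ) (x : ℕ → V) (B : ℝ) (hx : ∀ n, ‖x n‖ ≤ B) (k : ℕ) :
    ‖L w M (fun n => x (n + k)) - L w M x‖ ≤ k * (τ * B) := by
  induction k with
  | zero => simp
  | succ k ih =>
    have h1 := L_shift1 hw (fun n => x (n + k)) B (fun n => hx _)
    have h2 : (fun n => x (n + (k + 1))) = fun n => (fun n => x (n + k)) (n + 1) := by
      funext n
      show x (n + (k + 1)) = x (n + 1 + k)
      congr 1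
      ring
    rw [h2]
    have h3 := norm_sub_le_norm_sub_add_norm_sub (L w M (fun n => (fun n => x (n + k)) (n + 1)))
      (L w M (fun n => x (n + k))) (L w M x)
    push_cast
    linarith

/-- correlations of a sequence of vectors -/
noncomputable def cr (x : ℕ → V) (k n : ℕ) : ℂ := inner ℂ (x n) (x (n + k))

lemma cr_le (x : ℕ → V) (hx : ∀ n, ‖x n‖ ≤ 1) (k n : ℕ) : ‖cr x k n‖ ≤ 1 := by
  unfold cr
  refine (norm_inner_le_norm _ _).trans ?_
  exact mul_le_one₀ (hx _) (norm_nonneg _) (hx _)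

/-- the sum of the squares of short sums -/
noncomputable def Qs (w : ℕ → ℝ) (M H : ℕ) (x : ℕ → V) : ℝ := ∑ n ∈ range M, w n * ‖∑ m ∈ range H, x (n + m)‖ ^ 2

lemma Qs_nonneg (hw : Wt w M C τ) (H : ℕ) (x : ℕ → V) : 0 ≤ Qs w M H x :=
  sum_nonneg fun n _ => mul_nonneg (hw.nn n) (sq_nonneg _)

theorem vdc (hw : Wt w M C τ) (x : ℕ → V) (hx : ∀ n, ‖x n‖ ≤ 1) (H : ℕ) :
    Qs w M H x ≤ H * C + H ^ 2 * (∑ j ∈ Ico 1 H, ‖L w M (cr x j)‖ + H * τ) := by
  have hC := hw.C_nonneg
  have hτ := hw.τ_nonneg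
  set D : ℝ := ∑ j ∈ Ico 1 H, ‖L w M (cr x j)‖ with hD
  have hD0 : 0 ≤ D := sum_nonneg fun _ _ => norm_nonneg _
  have h1 : (Qs w M H x : ℂ) = ∑ m ∈ range H, ∑ m' ∈ range H, L w M (fun n => inner ℂ (x (n + m)) (x (n + m'))) := by
    unfold Qs L
    have e1 : ∀ m ∈ range H, ∑ m' ∈ range H, ∑ n ∈ range M, (w n : ℂ) • inner ℂ (x (n + m)) (x (n + m')) =
        ∑ n ∈ range M, (w n : ℂ) • ∑ m' ∈ range H, inner ℂ (x (n + m)) (x (n + m')) := by
      intro m _
      rw [sum_comm]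
      exact sum_congr rfl fun n _ => (smul_sum).symm
    rw [sum_congr rfl e1, sum_comm]
    push_cast
    refine sum_congr rfl fun n _ => ?_
    rw [← smul_sum, smul_eq_mul]
    congr 1
    have e2 : ((‖∑ m ∈ range H, x (n + m)‖ : ℝ) : ℂ) ^ 2 =
        inner ℂ (∑ m ∈ range H, x (n + m)) (∑ m ∈ range H, x (n + m)) := by
      rw [inner_self_eq_norm_sq_to_K]
      rfl
    rw [e2, sum_inner]
    refine sum_congr rfl fun m _ => ?_
    rw [inner_sum]
  have h2 : ∀ m ∈ range H, ∀ m' ∈ range H, ‖L w M (fun n => inner ℂ (x (n + m)) (x (n + m')))‖ ≤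
      (if m = m' then C else 0) + (D + H * τ) := by
    intro m hm m' hm'
    rw [mem_range] at hm hm'
    have hτH : ∀ t : ℕ, t < H → (t : ℝ) * (τ * 1) ≤ H * τ := by
      intro t ht
      have : (t : ℝ) ≤ H := by exact_mod_cast ht.le
      rw [mul_one]
      exact mul_le_mul_of_nonneg_right this hτ
    have hone : ∀ k t : ℕ, 1 ≤ k → k < H → t < H → ‖L w M (fun n => cr x k (n + t))‖ ≤ D + H * τ := by
      intro k t hk1 hk ht
      have e1 := L_shift hw (cr x k) 1 (fun n => cr_le x hx k n) t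
      have e2 := norm_sub_norm_le (L w M (fun n => cr x k (n + t))) (L w M (cr x k))
      have e3 : ‖L w M (cr x k)‖ ≤ D :=
        single_le_sum (f := fun j => ‖L w M (cr x j)‖) (fun _ _ => norm_nonneg _) (mem_Ico.2 ⟨hk1, hk⟩)
      have e4 := hτH t ht
      linarith
    rcases lt_trichotomy m m' with h | h | h
    · rw [if_neg h.ne, zero_add]
      have e1 : (fun n => inner ℂ (x (n + m)) (x (n + m'))) = fun n => cr x (m' - m) (n + m) := by
        funext n
        unfold cr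
        congr 2
        omega
      rw [e1]
      exact hone (m' - m) m (by omega) (by omega) hm
    · subst h
      rw [if_pos rfl]
      have e1 := L_norm hw (fun n => inner ℂ (x (n + m)) (x (n + m))) 1 zero_le_one (fun n => by
        refine (norm_inner_le_norm _ _).trans ?_
        exact mul_le_one₀ (hx _) (norm_nonneg _) (hx _))
      have : 0 ≤ H * τ := by positivity
      linarith
    · rw [if_neg h.ne', zero_add]
      have e1 : ‖L w M (fun n => inner ℂ (x (n + m)) (x (n + m')))‖ = ‖L w M (fun n => cr x (m - m') (n + m'))‖ := by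
        rw [← RCLike.norm_conj]
        congr 1
        unfold L
        rw [map_sum]
        refine sum_congr rfl fun n _ => ?_
        rw [smul_eq_mul, smul_eq_mul, map_mul, Complex.conj_ofReal, inner_conj_symm]
        unfold cr
        congr 3
        omega
      rw [e1]
      exact hone (m - m') m' (by omega) (by omega) hm'
  have h3 : ‖(Qs w M H x : ℂ)‖ ≤ ∑ m ∈ range H, ∑ m' ∈ range H, ((if m = m' then C else 0) + (D + H * τ)) := by
    rw [h1]
    refine (norm_sum_le _ _).trans (sum_le_sum fun m hm => ?_)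
    exact (norm_sum_le _ _).trans (sum_le_sum fun m' hm' => h2 m hm m' hm')
  rw [Complex.norm_real, Real.norm_eq_abs] at h3
  refine (le_abs_self _).trans (h3.trans (le_of_eq ?_))
  have h4 : ∀ m ∈ range H, ∑ m' ∈ range H, ((if m = m' then C else 0) + (D + H * τ)) = C + H * (D + H * τ) := by
    intro m hm
    rw [sum_add_distrib, sum_ite_eq, if_pos hm, sum_const, card_range, nsmul_eq_mul]
  rw [sum_congr rfl h4, sum_const, card_range, nsmul_eq_mul]
  ring

/-- from short sums to long sums -/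
theorem vdc_norm (hw : Wt w M C τ) (x : ℕ → V) (hx : ∀ n, ‖x n‖ ≤ 1) (H : ℕ) :
    H * ‖L w M x‖ ≤ Real.sqrt (C * Qs w M H x) + H ^ 2 * τ := by
  have hC := hw.C_nonneg
  have hτ := hw.τ_nonneg
  have h1 : ‖L w M (fun n => ∑ m ∈ range H, x (n + m)) - (H : ℂ) • L w M x‖ ≤ H ^ 2 * τ := by
    rw [L_sum]
    have e1 : (H : ℂ) • L w M x = ∑ m ∈ range H, L w M x := by
      rw [sum_const, card_range, Nat.cast_smul_eq_nsmul]
    rw [e1, ← sum_sub_distrib]
    refine (norm_sum_le _ _).trans ?_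
    calc ∑ m ∈ range H, ‖L w M (fun n => x (n + m)) - L w M x‖ ≤ ∑ m ∈ range H, (H : ℝ) * τ := by
          refine sum_le_sum fun m hm => (L_shift hw x 1 hx m).trans ?_
          rw [mul_one]
          apply mul_le_mul_of_nonneg_right _ hτ
          exact_mod_cast (mem_range.1 hm).le
      _ = H ^ 2 * τ := by
          rw [sum_const, card_range, nsmul_eq_mul]
          ring
  have h2 : ‖L w M (fun n => ∑ m ∈ range H, x (n + m))‖ ≤ Real.sqrt (C * Qs w M H x) := by
    refine (L_norm_le hw _).trans ?_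
    apply Real.le_sqrt_of_sq_le
    have e1 : (∑ n ∈ range M, w n * ‖∑ m ∈ range H, x (n + m)‖) ^ 2 ≤
        (∑ n ∈ range M, w n) * ∑ n ∈ range M, w n * ‖∑ m ∈ range H, x (n + m)‖ ^ 2 := by
      have e2 := sum_mul_sq_le_sq_mul_sq (range M) (fun n => Real.sqrt (w n))
        (fun n => Real.sqrt (w n) * ‖∑ m ∈ range H, x (n + m)‖)
      have e3 : ∑ n ∈ range M, Real.sqrt (w n) * (Real.sqrt (w n) * ‖∑ m ∈ range H, x (n + m)‖) =
          ∑ n ∈ range M, w n * ‖∑ m ∈ range H, x (n + m)‖ := by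
        refine sum_congr rfl fun n _ => ?_
        rw [← mul_assoc, Real.mul_self_sqrt (hw.nn n)]
      have e4 : ∑ n ∈ range M, Real.sqrt (w n) ^ 2 = ∑ n ∈ range M, w n :=
        sum_congr rfl fun n _ => Real.sq_sqrt (hw.nn n)
      have e5 : ∑ n ∈ range M, (Real.sqrt (w n) * ‖∑ m ∈ range H, x (n + m)‖) ^ 2 =
          ∑ n ∈ range M, w n * ‖∑ m ∈ range H, x (n + m)‖ ^ 2 := by
        refine sum_congr rfl fun n _ => ?_
        rw [mul_pow, Real.sq_sqrt (hw.nn n)]
      rw [e3, e4, e5] at e2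
      exact e2
    refine e1.trans ?_
    exact mul_le_mul_of_nonneg_right hw.tot (Qs_nonneg hw H x)
  have h3 : ‖(H : ℂ) • L w M x‖ = H * ‖L w M x‖ := by
    rw [norm_smul, Complex.norm_natCast]
  have h4 := norm_sub_norm_le ((H : ℂ) • L w M x) (L w M (fun n => ∑ m ∈ range H, x (n + m)))
  rw [h3, norm_sub_rev] at h4
  linarith

end

end Pool.Agent.Y842.CX
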